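import Pool.Agent.W592.HC.A3

set_option autoImplicit false

open Set Topology Filter MeasureTheory

namespace Pool.Agent.W592.HC

open Pool.Agent.W960.HC

lemma pos_of_pos {h : ℝ → ℝ} (hc : Continuous h) (hi : ∀ X : ℝ, IntegrableOn h (Ioi X))
    (hp : ∀ x, 0 < x → 0 < h x) : 0 < ∫ x in Ioi (0:ℝ), h x := by
  rw [← intervalIntegral.integral_interval_add_Ioi (hi 0) (hi 1)]
  have h1 : 0 < ∫ x in (0:ℝ)..1, h x :=
    intervalIntegral.intervalIntegral_pos_of_pos_on (hc.intervalIntegrable _ _)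
      (fun x hx => hp x hx.1) one_pos
  have h2 : 0 ≤ ∫ x in Ioi (1:ℝ), h x :=
    setIntegral_nonneg measurableSet_Ioi (fun x hx => (hp x (one_pos.trans hx)).le)
  linarith

noncomputable def h0 (x : ℝ) : ℝ := Real.exp (-x ^ 2) * S x
noncomputable def h1 (x : ℝ) : ℝ := Real.exp (-x ^ 2) * S x * x ^ 2
noncomputable def h2 (x : ℝ) : ℝ := x ^ 2 * Real.exp (-x ^ 2) / S x

lemma h0_cont : Continuous h0 := by have := S_cont; unfold h0; fun_prop
lemma h1_cont : Continuous h1 := by have := S_cont; unfold h1; fun_prop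
lemma h2_cont : Continuous h2 := by
  have := S_cont; unfold h2
  exact Continuous.div (by fun_prop) S_cont (fun x => (S_pos x).ne')

lemma h0_int (X : ℝ) : IntegrableOn h0 (Ioi X) := by
  apply integrable_of_bound (M := 2) h0_cont
  intro x hx
  unfold h0
  have h1 := S_pos x
  have h2 := S_le_two hx
  have h3 := Real.exp_pos (-x ^ 2)
  rw [abs_of_pos (by positivity)]
  have h4 : S x ≤ 2 * x ^ 3 := by nlinarith [sq_nonneg x, mul_nonneg (by linarith : (0:ℝ) ≤ x) (by nlinarith : (0:ℝ) ≤ x ^ 2 - 1)]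
  calc Real.exp (-x ^ 2) * S x ≤ Real.exp (-x ^ 2) * (2 * x ^ 3) :=
        mul_le_mul_of_nonneg_left h4 h3.le
    _ = _ := by ring

lemma h1_int (X : ℝ) : IntegrableOn h1 (Ioi X) := by
  apply integrable_of_bound (M := 2) h1_cont
  intro x hx
  unfold h1
  have h1 := S_pos x
  have h2 := S_le_two hx
  have h3 := Real.exp_pos (-x ^ 2)
  rw [abs_of_nonneg (by positivity)]
  have h4 : S x * x ^ 2 ≤ 2 * x ^ 3 := by
    nlinarith [mul_nonneg (sq_nonneg x) (by linarith : (0:ℝ) ≤ 2 * x - S x)]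
  calc Real.exp (-x ^ 2) * S x * x ^ 2 = Real.exp (-x ^ 2) * (S x * x ^ 2) := by ring
    _ ≤ Real.exp (-x ^ 2) * (2 * x ^ 3) := mul_le_mul_of_nonneg_left h4 h3.le
    _ = _ := by ring

lemma h2_int (X : ℝ) : IntegrableOn h2 (Ioi X) := by
  apply integrable_of_bound (M := 1) h2_cont
  intro x hx
  unfold h2
  have h1 := S_pos x
  have h1' := one_le_S x
  have h3 := Real.exp_pos (-x ^ 2)
  rw [abs_of_nonneg (by positivity), one_mul]
  have h4 : x ^ 2 * Real.exp (-x ^ 2) / S x ≤ x ^ 2 * Real.exp (-x ^ 2) :=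
    div_le_self (by positivity) h1'
  have h5 : x ^ 2 * Real.exp (-x ^ 2) ≤ x ^ 3 * Real.exp (-x ^ 2) := by
    apply mul_le_mul_of_nonneg_right _ h3.le
    nlinarith [sq_nonneg x]
  linarith

noncomputable def b0 : ℝ := ∫ x in Ioi (0:ℝ), h0 x
noncomputable def b1 : ℝ := ∫ x in Ioi (0:ℝ), h1 x

lemma b0_pos : 0 < b0 := by
  apply pos_of_pos h0_cont h0_int
  intro x _
  have := S_pos x
  unfold h0; positivity

lemma b1_pos : 0 < b1 := by
  apply pos_of_pos h1_cont h1_int
  intro x _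
  have := S_pos x
  unfold h1; positivity

lemma Fi_aff (a c s t : ℝ) : Fi (a + s) (c + t) = Fi a c + s * b0 + t * b1 := by
  have i1 : Integrable (g a c) (volume.restrict (Ioi 0)) := g_int a c 0
  have i2 : Integrable (fun x => s * h0 x) (volume.restrict (Ioi 0)) := (h0_int 0).const_mul s
  have i3 : Integrable (fun x => t * h1 x) (volume.restrict (Ioi 0)) := (h1_int 0).const_mul t
  have e1 : ∫ x in Ioi (0:ℝ), (g a c x + s * h0 x) =
      (∫ x in Ioi (0:ℝ), g a c x) + ∫ x in Ioi (0:ℝ), s * h0 x := integral_add i1 i2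
  have e2 : ∫ x in Ioi (0:ℝ), ((g a c x + s * h0 x) + t * h1 x) =
      (∫ x in Ioi (0:ℝ), (g a c x + s * h0 x)) + ∫ x in Ioi (0:ℝ), t * h1 x :=
    integral_add (i1.add i2) i3
  unfold Fi b0 b1
  rw [← integral_const_mul, ← integral_const_mul, ← e1, ← e2]
  congr 1
  ext x
  unfold g h0 h1
  ring

lemma Fi_neg : Fi 0 (-3) < 0 := by
  have hd : ∀ x ∈ Ici (0:ℝ), HasDerivAt (fun x : ℝ => x * Real.exp (-x ^ 2) * S x)
      (g 0 (-3) x + h2 x) x := by
    intro x _
    have e1 : HasDerivAt (fun x : ℝ => -x ^ 2) (-(2 * x)) x := by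
      have := (hasDerivAt_pow 2 x).fun_neg
      simpa using this
    have e2 : HasDerivAt (fun x : ℝ => 1 + x ^ 2) (2 * x) x := by
      have := (hasDerivAt_pow 2 x).const_add 1
      simpa using this
    have e3 : HasDerivAt S (2 * x / (2 * S x)) x := e2.sqrt (by positivity)
    have e4 := ((hasDerivAt_id x).mul e1.exp).mul e3
    refine e4.congr_deriv ?_
    have h1 := S_pos x
    have h2' := S_sq x
    unfold g h2
    simp only [id, Pi.mul_apply]
    field_simp
    linear_combination (-(S x) ^ 2) * h2'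
  have hlim : Tendsto (fun x : ℝ => x * Real.exp (-x ^ 2) * S x) atTop (𝓝 0) := by
    have h1 : Tendsto (fun x : ℝ => 2 * kp x) atTop (𝓝 0) := by
      simpa using tendsto_kp.const_mul 2
    refine tendsto_of_tendsto_of_tendsto_of_le_of_le' tendsto_const_nhds h1 ?_ ?_
    · filter_upwards [eventually_ge_atTop (0:ℝ)] with x hx
      have := S_pos x
      positivity
    · filter_upwards [eventually_ge_atTop (0:ℝ)] with x hx
      have h2 := S_le hx
      have h3 := Real.exp_pos (-x ^ 2)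
      unfold kp
      have h4 : x * S x ≤ 2 * (1 + x ^ 2) := by nlinarith [sq_nonneg (x - 1)]
      calc x * Real.exp (-x ^ 2) * S x = Real.exp (-x ^ 2) * (x * S x) := by ring
        _ ≤ Real.exp (-x ^ 2) * (2 * (1 + x ^ 2)) := mul_le_mul_of_nonneg_left h4 h3.le
        _ = _ := by ring
  have h := integral_Ioi_of_hasDerivAt_of_tendsto' hd ((g_int 0 (-3) 0).add (h2_int 0)) hlim
  have h' : (∫ x in Ioi (0:ℝ), (g 0 (-3) x + h2 x)) = Fi 0 (-3) + ∫ x in Ioi (0:ℝ), h2 x :=
    integral_add (g_int 0 (-3) 0) (h2_int 0)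
  have hp : 0 < ∫ x in Ioi (0:ℝ), h2 x := by
    apply pos_of_pos h2_cont h2_int
    intro x hx
    have := S_pos x
    unfold h2; positivity
  rw [h'] at h
  simp only [zero_mul, sub_zero] at h
  linarith

noncomputable def B0 (X : ℝ) : ℝ := ∫ x in (0:ℝ)..X, Real.exp (-x ^ 2) * Y (kp X) x
noncomputable def B1 (X : ℝ) : ℝ := ∫ x in (0:ℝ)..X, Real.exp (-x ^ 2) * Y (kp X) x * x ^ 2

lemma B0_nonneg {X : ℝ} (hX : 0 ≤ X) : 0 ≤ B0 X := by
  apply intervalIntegral.integral_nonneg hX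
  intro x _
  exact mul_nonneg (Real.exp_pos _).le (Y_nonneg _ _)

lemma Mel_aff (a c s t X : ℝ) : Mel (a + s) (c + t) X = Mel a c X + s * B0 X + t * B1 X := by
  have hY := Y_cont (kp X)
  have e1 : IntervalIntegrable (fun x => Real.exp (-x ^ 2) * Y (kp X) x) volume 0 X := by
    apply Continuous.intervalIntegrable; fun_prop
  have e2 : IntervalIntegrable (fun x => Real.exp (-x ^ 2) * Y (kp X) x * x ^ 2) volume 0 X := by
    apply Continuous.intervalIntegrable; fun_prop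
  have e3 : IntervalIntegrable (m a c X) volume 0 X := (m_cont a c X).intervalIntegrable _ _
  have h1 : Mel a c X = ∫ x in (0:ℝ)..X, m a c X x := rfl
  have h2 : Mel (a + s) (c + t) X = ∫ x in (0:ℝ)..X, m (a + s) (c + t) X x := rfl
  rw [h1, h2]
  unfold B0 B1
  rw [← intervalIntegral.integral_const_mul, ← intervalIntegral.integral_const_mul,
    ← intervalIntegral.integral_add e3 (e1.const_mul s),
    ← intervalIntegral.integral_add (e3.add (e1.const_mul s)) (e2.const_mul t)]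
  congr 1
  ext x
  unfold m
  ring

lemma Mel_pos {a c X : ℝ} (hX : 0 < X) (h : ∀ x ∈ Ioo 0 X, 0 < a + c * x ^ 2) :
    0 < Mel a c X := by
  have h1 : Mel a c X = ∫ x in (0:ℝ)..X, m a c X x := rfl
  rw [h1]
  apply intervalIntegral.intervalIntegral_pos_of_pos_on ((m_cont a c X).intervalIntegrable _ _) _ hX
  intro x hx
  have h2 := Y_pos hx.1.le hx.2
  have h3 := h x hx
  unfold m
  positivity

theorem signs : ∃ a c X1 X2 X3 X4 : ℝ, 0 < X1 ∧ X1 < X2 ∧ X2 < X3 ∧ X3 < X4 ∧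
    0 < Mel a c X1 ∧ Mel a c X2 < 0 ∧ 0 < Mel a c X3 ∧ Mel a c X4 < 0 := by
  have hb0 := b0_pos
  have hb1 := b1_pos
  have hq := Fi_neg
  obtain ⟨a0, ha0, hF0⟩ : ∃ a0, 0 < a0 ∧ Fi a0 (-3) = 0 := by
    refine ⟨-Fi 0 (-3) / b0, div_pos (by linarith) hb0, ?_⟩
    have := Fi_aff 0 (-3) (-Fi 0 (-3) / b0) 0
    rw [zero_add, add_zero] at this
    rw [this]
    field_simp
    ring
  obtain ⟨X2, hX2, hX2'⟩ := claim1 ha0.le
  have hM2 : Mel a0 (-3) X2 < 0 := by
    have := hX2' X2 le_rfl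
    rwa [hF0] at this
  obtain ⟨d, hd, a1, ha1, hF1, hM2'⟩ : ∃ d, 0 < d ∧ ∃ a1, 0 < a1 ∧ Fi a1 (-3 - d) = 0 ∧
      Mel a1 (-3 - d) X2 < 0 := by
    set K := b1 / b0 * B0 X2 - B1 X2 with hK
    have hK1 : 0 < |K| + 1 := by positivity
    set d := -Mel a0 (-3) X2 / (2 * (|K| + 1)) with hd
    have hd0 : 0 < d := div_pos (by linarith) (by linarith)
    refine ⟨d, hd0, a0 + d * (b1 / b0), by positivity, ?_, ?_⟩
    · have := Fi_aff a0 (-3) (d * (b1 / b0)) (-d)
      rw [← sub_eq_add_neg] at this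
      rw [this, hF0]
      field_simp
      ring
    · have := Mel_aff a0 (-3) (d * (b1 / b0)) (-d) X2
      rw [← sub_eq_add_neg] at this
      rw [this]
      have h1 : Mel a0 (-3) X2 + d * (b1 / b0) * B0 X2 + -d * B1 X2 = Mel a0 (-3) X2 + d * K := by
        rw [hK]; ring
      rw [h1]
      have h2 : d * K ≤ d * |K| := mul_le_mul_of_nonneg_left (le_abs_self K) hd0.le
      have h3 : d * (2 * (|K| + 1)) = -Mel a0 (-3) X2 := by
        rw [hd]; field_simp
      have h4 : 0 ≤ d * |K| := by positivity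
      nlinarith
  obtain ⟨X0', hX0', hX0''⟩ := claim2 ha1.le hd
  set X3 := max (X2 + 1) X0' with hX3
  have hM3 : 0 < Mel a1 (-3 - d) X3 := by
    have := hX0'' X3 (le_max_right _ _)
    rwa [hF1] at this
  have h23 : X2 < X3 := lt_of_lt_of_le (by linarith) (le_max_left _ _)
  obtain ⟨X1, hX1, h12, hM1⟩ : ∃ X1, 0 < X1 ∧ X1 < X2 ∧ 0 < Mel a1 (-3 - d) X1 := by
    refine ⟨min (1 / 2) (a1 / (2 * (3 + d))), by positivity, ?_, ?_⟩
    · exact lt_of_le_of_lt (min_le_left _ _) (by linarith)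
    · apply Mel_pos (by positivity)
      intro x hx
      have h1 : x ≤ 1 / 2 := hx.2.le.trans (min_le_left _ _)
      have h2 : x ≤ a1 / (2 * (3 + d)) := hx.2.le.trans (min_le_right _ _)
      rw [le_div_iff₀ (by positivity)] at h2
      have h3 : 0 < x := hx.1
      have h4 : x ^ 2 ≤ x := by nlinarith
      have h5 : (3 + d) * x ^ 2 ≤ (3 + d) * x := mul_le_mul_of_nonneg_left h4 (by linarith)
      nlinarith
  set D := |B0 X1| + |B0 X3| + 1 with hD
  have hD0 : 0 < D := by positivity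
  set e := min (Mel a1 (-3 - d) X1) (Mel a1 (-3 - d) X3) / (2 * D) with he
  have hmin : 0 < min (Mel a1 (-3 - d) X1) (Mel a1 (-3 - d) X3) := lt_min hM1 hM3
  have he0 : 0 < e := by positivity
  have heD : e * (2 * D) = min (Mel a1 (-3 - d) X1) (Mel a1 (-3 - d) X3) := by
    rw [he]; field_simp
  have hF4 : Fi (a1 - e) (-3 - d) < 0 := by
    have := Fi_aff a1 (-3 - d) (-e) 0
    rw [← sub_eq_add_neg, add_zero] at this
    rw [this, hF1]
    nlinarith [mul_pos he0 hb0]
  have hMel : ∀ X, Mel (a1 - e) (-3 - d) X = Mel a1 (-3 - d) X - e * B0 X := by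
    intro X
    have := Mel_aff a1 (-3 - d) (-e) 0 X
    rw [← sub_eq_add_neg, add_zero] at this
    rw [this]; ring
  obtain ⟨X0, hX0, hX0b⟩ := claim3 hF4
  refine ⟨a1 - e, -3 - d, X1, X2, X3, max (X3 + 1) X0, hX1, h12, h23,
    lt_of_lt_of_le (by linarith) (le_max_left _ _), ?_, ?_, ?_, hX0b _ (le_max_right _ _)⟩
  · rw [hMel]
    have h1 : e * B0 X1 ≤ e * |B0 X1| := mul_le_mul_of_nonneg_left (le_abs_self _) he0.le
    have h2 : e * |B0 X1| ≤ e * D := mul_le_mul_of_nonneg_left (by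
      have := abs_nonneg (B0 X3); linarith) he0.le
    have h3 := min_le_left (Mel a1 (-3 - d) X1) (Mel a1 (-3 - d) X3)
    have h4 : 0 < e * D := by positivity
    nlinarith
  · rw [hMel]
    have := mul_nonneg he0.le (B0_nonneg (by linarith : (0:ℝ) ≤ X2))
    linarith
  · rw [hMel]
    have h1 : e * B0 X3 ≤ e * |B0 X3| := mul_le_mul_of_nonneg_left (le_abs_self _) he0.le
    have h2 : e * |B0 X3| ≤ e * D := mul_le_mul_of_nonneg_left (by
      have := abs_nonneg (B0 X1); linarith) he0.le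
    have h3 := min_le_right (Mel a1 (-3 - d) X1) (Mel a1 (-3 - d) X3)
    have h4 : 0 < e * D := by positivity
    nlinarith

end Pool.Agent.W592.HC
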